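import Pool.Agent.Zk37.HG.Rel

set_option autoImplicit false

/-! # Constant multiples -/

namespace Pool.Agent.Zk37.HG

open MvPolynomial Pool.Agent.W428.MOT Pool.Agent.N101.CB
open Pool.Agent.H628R4.TP (IsBFunction weylS)
open Pool.Agent.W375.MG (JetG)

theorem jet_scale {n : ℕ} (f : MvPolynomial (Fin n) ℂ) {D : ℂ} (hD : D ≠ 0) (W : Set (Pt ℂ (Fin n))) (N : ℕ) :
    JetG (C D * f) W (Un ℂ) N = JetG f W (Un ℂ) N := by
  ext z
  have h : ∀ k, PowerSeries.coeff k (aeval (arc z) (C D * f)) =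
      algebraMap ℂ (AlgebraicClosure ℂ) D * PowerSeries.coeff k (aeval (arc z) f) := by
    intro k
    rw [map_mul, aeval_C, PowerSeries.algebraMap_apply, PowerSeries.coeff_C_mul]
  have hD' : algebraMap ℂ (AlgebraicClosure ℂ) D ≠ 0 := by
    rw [Ne, map_eq_zero]
    exact hD
  unfold JetG Un
  simp only [Set.mem_ofPred_eq, h, mul_eq_zero, hD', false_or, ne_eq]

theorem zt_scale {n : ℕ} (f : MvPolynomial (Fin n) ℂ) {D : ℂ} (hD : D ≠ 0) (W : Set (Pt ℂ (Fin n))) :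
    zt (C D * f) W = zt f W := by
  unfold zt
  ext N
  rw [PowerSeries.coeff_mk, PowerSeries.coeff_mk, jet_scale f hD]

theorem bf_scale {n : ℕ} {f : MvPolynomial (Fin n) ℂ} {D : ℂ} (hD : D ≠ 0) {b : Polynomial ℂ}
    (hb : IsBFunction f b) : IsBFunction (C D * f) b := by
  obtain ⟨P, hP⟩ := hb
  refine ⟨D⁻¹ • P, fun s => ?_⟩
  have h1 : (C D * f) ^ (s + 1) = D ^ (s + 1) • f ^ (s + 1) := by
    rw [mul_pow, ← C_pow, C_mul']
  rw [Finsupp.sum_smul_index' (fun _ => by simp)]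
  have h2 : ∀ (m : ℕ) (Q : weylS (Fin n)), ((s : ℂ) ^ m) •
      ((D⁻¹ • Q : weylS (Fin n)) : Module.End ℂ (MvPolynomial (Fin n) ℂ)) ((C D * f) ^ (s + 1)) =
        D ^ s • (((s : ℂ) ^ m) • (Q : Module.End ℂ (MvPolynomial (Fin n) ℂ)) (f ^ (s + 1))) := by
    intro m Q
    rw [h1]
    change ((s : ℂ) ^ m) • (D⁻¹ • (Q : Module.End ℂ (MvPolynomial (Fin n) ℂ))) (D ^ (s + 1) • f ^ (s + 1)) = _
    rw [LinearMap.smul_apply, map_smul, smul_smul, smul_smul, smul_smul]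
    congr 1
    rw [pow_succ]
    field_simp
  have h3 : (P.sum fun m Q => ((s : ℂ) ^ m) •
      ((D⁻¹ • Q : weylS (Fin n)) : Module.End ℂ (MvPolynomial (Fin n) ℂ)) ((C D * f) ^ (s + 1))) =
      D ^ s • P.sum fun m Q => ((s : ℂ) ^ m) • (Q : Module.End ℂ (MvPolynomial (Fin n) ℂ)) (f ^ (s + 1)) := by
    rw [Finsupp.smul_sum]
    exact Finset.sum_congr rfl fun m _ => h2 m _
  rw [h3, ← hP s, mul_pow, ← C_pow, ← C_mul']
  ring

theorem tw_scale {χ : MK ℂ →+* ℂ} {n : ℕ} {f : MvPolynomial (Fin n) ℂ} {D : ℂ} (hD : D ≠ 0)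
    (h : TW χ (C D * f)) : TW χ f := by
  intro R hR s hs b hb
  exact h R (by rw [zt_scale f hD]; exact hR) s hs b (bf_scale hD hb)

theorem ts_scale {χ : MK ℂ →+* ℂ} {n : ℕ} {f : MvPolynomial (Fin n) ℂ} {D : ℂ} (hD : D ≠ 0)
    (h : TS χ (C D * f)) : TS χ f := by
  intro R hR s hs b hb
  exact h R (by rw [zt_scale f hD]; exact hR) s hs b (bf_scale hD hb)

end Pool.Agent.Zk37.HG
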