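import Mathlib

set_option autoImplicit false

/-! # Hypergraph polynomials -/

namespace Pool.Agent.Zk37.HG

open MvPolynomial

/-- the edge polynomial `∑_{e ∈ E} ∏_{i ∈ e} x_i` of a finite hypergraph with vertices `0, …, N - 1` -/
noncomputable def edgePoly {N : ℕ} (E : Finset (Finset (Fin N))) : MvPolynomial (Fin N) ℂ :=
  ∑ e ∈ E, ∏ i ∈ e, X i

/-- The hypergraph is 3-partite (there is a colouring of the vertices with three colours such that different vertices of an
edge have different colours, so the edges have at most three vertices), the edges are not empty, and every vertex is in at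
most three edges. -/
structure Hyp {N : ℕ} (E : Finset (Finset (Fin N))) : Prop where
  nonempty : ∀ e ∈ E, e.Nonempty
  col : ∃ col : Fin N → Fin 3, ∀ e ∈ E, ∀ i ∈ e, ∀ j ∈ e, col i = col j → i = j
  deg : ∀ i, (E.filter fun e => i ∈ e).card ≤ 3

end Pool.Agent.Zk37.HG
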