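import Pool.Agent.Zk37.HG.Red2

set_option autoImplicit false

/-! # Reduction of the number of occurrences of the variables -/

namespace Pool.Agent.Zk37.HG

open MvPolynomial

/-- the number of the members of the family which contain the variable `i` -/
def occ {n : ℕ} {ι : Type} [Fintype ι] (e : ι → Fin n →₀ ℕ) (i : Fin n) : ℕ :=
  ∑ j, if e j i = 0 then 0 else 1

theorem le_dg {n : ℕ} (col : Fin n → Fin 3) (m : Fin n →₀ ℕ) (i : Fin n) : m i ≤ dg col (col i) m := by
  unfold dg
  have h := Finset.single_le_sum (f := fun k => if col k = col i then m k else 0)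
    (fun k _ => Nat.zero_le _) (Finset.mem_univ i)
  simpa using h

theorem phase3 (S : Sys) : ∀ (M : ℕ) {n : ℕ} {ι : Type} [Fintype ι] (e : ι → Fin n →₀ ℕ)
    (col : Fin n → Fin 3), (∀ j c, dg col c (e j) ≤ 1) → ∑ i, (occ e i - 3) ≤ M →
    ∃ (N κ : ℕ) (ι' : Type) (_ : Fintype ι') (e' : ι' → Fin N →₀ ℕ) (ρ : Fin n → Fin N)
      (col' : Fin N → Fin 3), Exn S e e' ρ κ ∧ (∀ i, col' (ρ i) = col i) ∧
        (∀ j c, dg col' c (e' j) ≤ 1) ∧ ∀ i, occ e' i ≤ 3 := by
  classical
  intro M
  induction M with
  | zero =>
    intro n ι _ e col hI hM
    refine ⟨n, 0, ι, inferInstance, e, id, col, Exn.refl S e, fun i => rfl, hI, fun i => ?_⟩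
    have h2 : occ e i - 3 = 0 := Finset.sum_eq_zero_iff.1 (Nat.le_zero.1 hM) i (Finset.mem_univ i)
    omega
  | succ M ih =>
    intro n ι _ e col hI hM
    by_cases hall : ∀ i, occ e i ≤ 3
    · exact ⟨n, 0, ι, inferInstance, e, id, col, Exn.refl S e, fun i => rfl, hI, hall⟩
    · push Not at hall
      obtain ⟨x, hx⟩ := hall
      have hsq : ∀ j, e j x ≤ 1 := fun j => (le_dg col (e j) x).trans (hI j _)
      obtain ⟨s, hs⟩ : ∃ s : Finset ι, s = Finset.univ.filter fun j => e j x ≠ 0 := ⟨_, rfl⟩
      have hcard : s.card = occ e x := by
        rw [hs, Finset.card_filter]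
        unfold occ
        refine Finset.sum_congr rfl fun j _ => ?_
        by_cases h : e j x = 0
        · rw [if_pos h, if_neg (not_not.2 h)]
        · rw [if_neg h, if_pos h]
      obtain ⟨t, ht, ht2⟩ := Finset.exists_subset_card_eq (s := s) (n := 2) (by omega)
      obtain ⟨a, ha⟩ : ∃ a : Fin n →₀ ℕ, a = Finsupp.single x 1 := ⟨_, rfl⟩
      obtain ⟨B, hBd⟩ : ∃ B : ι → Prop, B = fun j => j ∈ s \ t := ⟨_, rfl⟩
      have hBx : ∀ j, B j → e j x = 1 := by
        intro j hj
        rw [hBd] at hj
        have h1 : j ∈ s := (Finset.mem_sdiff.1 hj).1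
        rw [hs, Finset.mem_filter] at h1
        have := hsq j
        have := h1.2
        omega
      have hB : ∀ j, B j → a ≤ e j := fun j hj => by
        rw [ha]
        exact single_le (by rw [hBx j hj]; exact one_ne_zero)
      have hE := Exn.ext S e B a hB
      have hα : ∃ α : Fin 3, α ≠ col x := by
        by_cases h : col x = 0
        · exact ⟨1, by rw [h]; decide⟩
        · exact ⟨0, fun h' => h h'.symm⟩
      obtain ⟨α, hα⟩ := hα
      have da : ∀ c, dg col c a = if col x = c then 1 else 0 := by
        intro c
        rw [ha, dg_single]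
      have key : ∀ y c, dg (c4 col α (col x) α (col x)) c (ext e B a y) ≤ 1 := by
        intro y c
        rcases y with j | k
        · rw [ext_l]
          have h7 := hI j c
          split_ifs with h8
          · have s1 := dg_sub col c (hB j h8)
            have a1 := da c
            rw [dg_gg]
            simp only [ite_self]
            split_ifs at a1 ⊢ <;> omega
          · rw [dg_gg]
            simp only [ite_self]
            omega
        · have z0 := dg_zero col c
          have a1 := da c
          have hαx : ¬ (α = c ∧ col x = c) := fun h => hα (h.1.trans h.2.symm)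
          fin_cases k
          · show dg _ c (ext e B a (Sum.inr 0)) ≤ 1
            rw [ext_r0, dg_gg, z0]
            by_cases p1 : α = c <;> by_cases p2 : col x = c <;> simp [p1, p2] <;> tauto
          · show dg _ c (ext e B a (Sum.inr 1)) ≤ 1
            rw [ext_r1, dg_gg, a1]
            by_cases p1 : α = c <;> by_cases p2 : col x = c <;> simp [p1, p2] <;> tauto
          · show dg _ c (ext e B a (Sum.inr 2)) ≤ 1
            rw [ext_r2, dg_gg, z0]
            by_cases p1 : α = c <;> by_cases p2 : col x = c <;> simp [p1, p2] <;> tauto
          · show dg _ c (ext e B a (Sum.inr 3)) ≤ 1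
            rw [ext_r3, dg_gg, z0]
            by_cases p1 : α = c <;> by_cases p2 : col x = c <;> simp [p1, p2] <;> tauto
      -- occurrences
      have o0 : ∀ i, i ≠ x → occ (ext e B a) (cc i) = occ e i := by
        intro i hi
        have hai : a i = 0 := by
          rw [ha]
          simp [Ne.symm hi]
        unfold occ
        rw [Fintype.sum_sum_type, Fin.sum_univ_four, ext_r0, ext_r1, ext_r2, ext_r3]
        simp only [gg_cc, hai, Finsupp.zero_apply, if_true, add_zero]
        refine Finset.sum_congr rfl fun j _ => ?_
        rw [ext_l]
        by_cases h : B j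
        · rw [if_pos h, gg_cc, Finsupp.tsub_apply, hai, Nat.sub_zero]
        · rw [if_neg h, gg_cc]
      have o1 : occ (ext e B a) (cc x) = 3 := by
        have hax : a x = 1 := by
          rw [ha, Finsupp.single_eq_same]
        unfold occ
        rw [Fintype.sum_sum_type, Fin.sum_univ_four, ext_r0, ext_r1, ext_r2, ext_r3]
        simp only [gg_cc, hax, Finsupp.zero_apply, if_true, add_zero]
        have h1 : ∑ j, (if ext e B a (Sum.inl j) (cc x) = 0 then 0 else 1) = t.card := by
          rw [Finset.card_eq_sum_ones, ← Finset.sum_filter_add_sum_filter_not Finset.univ (fun j => j ∈ t)]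
          have h2 : ∑ j ∈ Finset.univ.filter (fun j => ¬ j ∈ t),
              (if ext e B a (Sum.inl j) (cc x) = 0 then 0 else 1) = 0 := by
            refine Finset.sum_eq_zero fun j hj => ?_
            rw [Finset.mem_filter] at hj
            rw [ext_l]
            by_cases h : B j
            · rw [if_pos h, gg_cc, Finsupp.tsub_apply, hax, hBx j h, if_pos rfl]
            · rw [if_neg h, gg_cc]
              rw [if_pos]
              by_contra hne
              apply h
              rw [hBd]
              refine Finset.mem_sdiff.2 ⟨?_, hj.2⟩
              rw [hs, Finset.mem_filter]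
              exact ⟨Finset.mem_univ _, hne⟩
          rw [h2, add_zero]
          have h3 : Finset.univ.filter (fun j => j ∈ t) = t := by
            ext j
            simp
          rw [h3]
          refine Finset.sum_congr rfl fun j hj => ?_
          have h4 : ¬ B j := by
            rw [hBd]
            intro h5
            exact (Finset.mem_sdiff.1 h5).2 hj
          have h5 : e j x ≠ 0 := by
            have := ht hj
            rw [hs, Finset.mem_filter] at this
            exact this.2
          rw [ext_l, if_neg h4, gg_cc, if_neg h5]
        rw [h1, ht2]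
        simp
      have o2 : occ (ext e B a) (vT' n) = 2 := by
        unfold occ
        rw [Fintype.sum_sum_type, Fin.sum_univ_four, ext_r0, ext_r1, ext_r2, ext_r3]
        have h1 : ∑ j, (if ext e B a (Sum.inl j) (vT' n) = 0 then 0 else 1) = 0 := by
          refine Finset.sum_eq_zero fun j _ => ?_
          rw [ext_l]
          split_ifs with h2 h3 h3
          · rfl
          · exact absurd (gg_T' _ _ _ _ _) h3
          · rfl
          · exact absurd (gg_T' _ _ _ _ _) h3
        rw [h1]
        simp only [gg_T']
        simp
      have o3 : occ (ext e B a) (vW' n) = 2 := by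
        unfold occ
        rw [Fintype.sum_sum_type, Fin.sum_univ_four, ext_r0, ext_r1, ext_r2, ext_r3]
        have h1 : ∑ j, (if ext e B a (Sum.inl j) (vW' n) = 0 then 0 else 1) = 0 := by
          refine Finset.sum_eq_zero fun j _ => ?_
          rw [ext_l]
          split_ifs with h2 h3 h3
          · rfl
          · exact absurd (gg_W' _ _ _ _ _) h3
          · rfl
          · exact absurd (gg_W' _ _ _ _ _) h3
        rw [h1]
        simp only [gg_W']
        simp
      have o4 : occ (ext e B a) (vT n) = 2 := by
        unfold occ
        rw [Fintype.sum_sum_type, Fin.sum_univ_four, ext_r0, ext_r1, ext_r2, ext_r3]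
        have h1 : ∑ j, (if ext e B a (Sum.inl j) (vT n) = 0 then 0 else 1) = 0 := by
          refine Finset.sum_eq_zero fun j _ => ?_
          rw [ext_l]
          split_ifs with h2 h3 h3
          · rfl
          · exact absurd (gg_T _ _ _ _ _) h3
          · rfl
          · exact absurd (gg_T _ _ _ _ _) h3
        rw [h1]
        simp only [gg_T]
        simp
      have o5 : occ (ext e B a) (vW n) + 1 = occ e x := by
        unfold occ
        rw [Fintype.sum_sum_type, Fin.sum_univ_four, ext_r0, ext_r1, ext_r2, ext_r3]
        have h1 : ∑ j, (if ext e B a (Sum.inl j) (vW n) = 0 then 0 else 1) = (s \ t).card := by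
          rw [Finset.card_eq_sum_ones, ← Finset.sum_filter_add_sum_filter_not Finset.univ (fun j => j ∈ s \ t)]
          have h2 : ∑ j ∈ Finset.univ.filter (fun j => ¬ j ∈ s \ t),
              (if ext e B a (Sum.inl j) (vW n) = 0 then 0 else 1) = 0 := by
            refine Finset.sum_eq_zero fun j hj => ?_
            rw [Finset.mem_filter] at hj
            have h : ¬ B j := by
              rw [hBd]
              exact hj.2
            rw [ext_l, if_neg h, gg_W, if_pos rfl]
          rw [h2, add_zero]
          have h3 : Finset.univ.filter (fun j => j ∈ s \ t) = s \ t := by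
            ext j
            simp
          rw [h3]
          refine Finset.sum_congr rfl fun j hj => ?_
          have h : B j := by
            rw [hBd]
            exact hj
          rw [ext_l, if_pos h, gg_W, if_neg one_ne_zero]
        rw [h1, Finset.card_sdiff_of_subset ht, ht2, hcard]
        simp only [gg_W]
        have := hcard
        unfold occ at hx this ⊢
        simp
        omega
      have hsum : ∑ i, (occ (ext e B a) i - 3) ≤ M := by
        rw [sum4, o2, o3, o4, ← Finset.sum_erase_add _ _ (Finset.mem_univ x), o1]
        rw [← Finset.sum_erase_add _ _ (Finset.mem_univ x)] at hM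
        have h1 : ∑ i ∈ Finset.univ.erase x, (occ (ext e B a) (cc i) - 3) =
            ∑ i ∈ Finset.univ.erase x, (occ e i - 3) := by
          refine Finset.sum_congr rfl fun i hi => ?_
          rw [o0 i (Finset.ne_of_mem_erase hi)]
        rw [h1]
        omega
      obtain ⟨N, κ, ι', _, e', ρ, col', h7, h8, h9, h10⟩ := ih (ext e B a) (c4 col α (col x) α (col x)) key hsum
      exact ⟨N, 2 + κ, ι', inferInstance, e', ρ ∘ cc, col', hE.trans h7, fun i => by
        rw [Function.comp_apply, h8, c4_cc], h9, h10⟩

end Pool.Agent.Zk37.HG
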