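import Pool.Agent.Zk37.HG.Red1
import Pool.Agent.Zk37.HG.Red3
import Pool.Agent.Zk37.HG.Defs

set_option autoImplicit false

/-! # Hypergraphs -/

namespace Pool.Agent.Zk37.HG

open MvPolynomial

theorem two_le_dg {n : ℕ} (col : Fin n → Fin 3) (m : Fin n →₀ ℕ) {i j : Fin n} (hij : i ≠ j)
    (hc : col i = col j) (hi : m i ≠ 0) (hj : m j ≠ 0) : 2 ≤ dg col (col i) m := by
  classical
  unfold dg
  have h := Finset.sum_le_sum_of_subset (f := fun k => if col k = col i then m k else 0)
    (Finset.subset_univ {i, j})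
  rw [Finset.sum_pair hij, if_pos rfl, if_pos hc.symm] at h
  omega

/-- from families of exponents to hypergraphs -/
theorem to_hyp {N : ℕ} {ι : Type} [Fintype ι] (e : ι → Fin N →₀ ℕ) (col : Fin N → Fin 3)
    (hinj : Function.Injective e) (h0 : ∀ j, e j ≠ 0) (hc : ∀ j c, dg col c (e j) ≤ 1)
    (ho : ∀ i, occ e i ≤ 3) : ∃ E : Finset (Finset (Fin N)), Hyp E ∧ PP e = edgePoly E ∧
      ∀ i, (∀ j, e j ≠ Finsupp.single i 1) → {i} ∉ E := by
  classical
  have hle : ∀ j i, e j i ≤ 1 := fun j i => (le_dg col (e j) i).trans (hc j _)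
  have hS : Function.Injective fun j => (e j).support := by
    intro j j' h
    apply hinj
    ext i
    have h1 := Finset.ext_iff.1 h i
    rw [Finsupp.mem_support_iff, Finsupp.mem_support_iff] at h1
    have h2 := hle j i
    have h3 := hle j' i
    omega
  have hprod : ∀ j, (monomial (e j) (1 : ℂ)) = ∏ i ∈ (e j).support, X i := by
    intro j
    rw [monomial_eq, C_1, one_mul, Finsupp.prod]
    refine Finset.prod_congr rfl fun i hi => ?_
    have h1 : e j i = 1 := by
      have := hle j i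
      rw [Finsupp.mem_support_iff] at hi
      omega
    rw [h1, pow_one]
  refine ⟨Finset.univ.image fun j => (e j).support, ⟨fun s hs => ?_, ⟨col, fun s hs i hi k hk hik => ?_⟩,
    fun i => ?_⟩, ?_, fun i hi hmem => ?_⟩
  · obtain ⟨j, -, rfl⟩ := Finset.mem_image.1 hs
    rw [Finsupp.support_nonempty_iff]
    exact h0 j
  · obtain ⟨j, -, rfl⟩ := Finset.mem_image.1 hs
    by_contra hne
    rw [Finsupp.mem_support_iff] at hi hk
    have h1 := two_le_dg col (e j) hne hik hi hk
    have h2 := hc j (col i)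
    omega
  · rw [Finset.filter_image, Finset.card_image_of_injective _ hS]
    refine le_trans (le_of_eq ?_) (ho i)
    rw [Finset.card_filter]
    unfold occ
    refine Finset.sum_congr rfl fun j _ => ?_
    by_cases h : e j i = 0
    · rw [if_pos h, if_neg]
      rw [Finsupp.mem_support_iff]
      exact not_not.2 h
    · rw [if_neg h, if_pos]
      rwa [Finsupp.mem_support_iff]
  · unfold PP edgePoly
    rw [Finset.sum_image (fun a _ b _ h => hS h)]
    exact Finset.sum_congr rfl fun j _ => hprod j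
  · obtain ⟨j, -, hj⟩ := Finset.mem_image.1 hmem
    apply hi j
    ext k
    have h1 := Finset.ext_iff.1 hj k
    have h2 := hle j k
    rw [Finset.mem_singleton, Finsupp.mem_support_iff] at h1
    rw [Finsupp.single_apply]
    by_cases h3 : i = k
    · rw [if_pos h3]
      have := h1.2 h3.symm
      omega
    · rw [if_neg h3]
      by_contra h4
      exact h3 (h1.1 h4).symm

/-- the two reductions -/
theorem phase23 (S : Sys) {n : ℕ} {ι : Type} [Fintype ι] (e : ι → Fin n →₀ ℕ) (col : Fin n → Fin 3)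
    (hinj : Function.Injective e) (h0 : ∀ j, e j ≠ 0) (hI : ∀ j, Inv2 col (e j)) :
    ∃ (N κ : ℕ) (ρ : Fin n → Fin N) (E : Finset (Finset (Fin N))), N = n + 2 * κ ∧ Function.Injective ρ ∧
      Hyp E ∧ (∀ i, (∀ j, e j ≠ Finsupp.single i 1) → {ρ i} ∉ E) ∧
      ∀ L, S.R (PP e + L) (edgePoly E + rename ρ L) κ := by
  obtain ⟨N, κ, ι', _, e', ρ, col', h1, h2, h3⟩ := phase2 S _ e col hI le_rfl
  obtain ⟨N', κ', ι'', _, e'', ρ', col'', h4, h5, h6, h7⟩ := phase3 S _ e' col' h3 le_rfl
  have h8 := h1.trans h4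
  obtain ⟨E, hE, hP, hs⟩ := to_hyp e'' col'' (h8.inj hinj) (h8.ne0 h0) h6 h7
  exact ⟨N', κ + κ', ρ' ∘ ρ, E, h8.num, h8.rinj, hE, fun i hi => hs _ (h8.sing i hi), fun L => by
    rw [← hP]
    exact h8.red L⟩

/-- **Universal hypergraphs for the polynomials with given exponents.** -/
theorem universal (S : Sys) {n r : ℕ} (m : Fin r → Fin n →₀ ℕ) : ∃ (N κ : ℕ) (E : Finset (Finset (Fin N)))
    (t : Fin r → Fin N), N = n + 2 * κ ∧ Hyp E ∧ Function.Injective t ∧ (∀ j, {t j} ∉ E) ∧
      ∀ c : Fin r → ℂ, S.R (∑ j, C (c j) * monomial (m j) 1) (edgePoly E + ∑ j, C (c j) * X (t j)) κ := by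
  obtain ⟨N, κ, ρ, t, ι, _, e, col, hN, hρ, ht, htρ, -, he, het, hI, hnew, hR⟩ :=
    phase1 S r m (fun _ => 1) (fun _ _ _ => rfl)
  have h0 : ∀ k, e k ≠ 0 := by
    intro k hk
    obtain ⟨i, -, hi⟩ := hnew k
    rw [hk] at hi
    exact hi rfl
  obtain ⟨N', κ', ρ', E, hN', hρ', hE, hs, hR'⟩ := phase23 S e col he h0 hI
  refine ⟨N', κ + κ', E, ρ' ∘ t, by omega, hE, hρ'.comp ht, fun j => hs _ fun k => het k j, fun c => ?_⟩
  have h1 := hR c 0
  have h2 := hR' (∑ j, C (c j) * X (t j))
  rw [add_zero, map_zero, add_zero] at h1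
  have h3 : (∑ j, C (c j) * X (t j)) + PP e = PP e + ∑ j, C (c j) * X (t j) := add_comm _ _
  rw [h3] at h1
  have h4 := S.trans h1 h2
  rw [map_sum] at h4
  simpa only [map_mul, rename_C, rename_X, Function.comp_apply] using h4

/-- **The same with all coefficients equal to one.** -/
theorem universal_one (S : Sys) {n r : ℕ} (m : Fin r → Fin n →₀ ℕ) : ∃ (N κ : ℕ)
    (E : Finset (Finset (Fin N))), N = n + 2 * κ ∧ Hyp E ∧ S.R (∑ j, monomial (m j) 1) (edgePoly E) κ := by
  obtain ⟨N, κ, ρ, t, ι, _, e, col, hN, hρ, ht, htρ, -, he, het, hI, hnew, hR⟩ :=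
    phase1 S r m (fun _ => 1) (fun _ _ _ => rfl)
  have h0 : ∀ k, e k ≠ 0 := by
    intro k hk
    obtain ⟨i, -, hi⟩ := hnew k
    rw [hk] at hi
    exact hi rfl
  obtain ⟨e₁, he₁⟩ : ∃ e₁ : ι ⊕ Fin r → Fin N →₀ ℕ, e₁ = Sum.elim e fun j => Finsupp.single (t j) 1 := ⟨_, rfl⟩
  obtain ⟨N', κ', ρ', E, hN', hρ', hE, hs, hR'⟩ := phase23 S e₁ col (by
      rw [he₁]
      intro x y h
      rcases x with x | x
      · rcases y with y | y
        · exact congrArg _ (he h)
        · exact absurd h (het x y)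
      · rcases y with y | y
        · exact absurd h.symm (het y x)
        · have h1 : (Finsupp.single (t x) 1 : Fin N →₀ ℕ) = Finsupp.single (t y) 1 := h
          have h2 := (Finsupp.single_left_inj (one_ne_zero : (1 : ℕ) ≠ 0)).1 h1
          exact congrArg _ (ht h2)) (by
      rw [he₁]
      intro x
      rcases x with x | x
      · exact h0 x
      · show (Finsupp.single (t x) 1 : Fin N →₀ ℕ) ≠ 0
        rw [Ne, Finsupp.single_eq_zero]
        exact one_ne_zero) (by
      rw [he₁]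
      intro x
      rcases x with x | x
      · exact hI x
      · show Inv2 col (Finsupp.single (t x) 1)
        unfold Inv2
        rw [dg_single, dg_single, dg_single]
        split_ifs <;> simp)
  refine ⟨N', κ + κ', E, by omega, hE, ?_⟩
  have h1 := hR (fun _ => 1) 0
  have h2 := hR' 0
  rw [add_zero, map_zero, add_zero] at h1 h2
  have h3 : (∑ j : Fin r, C ((fun _ => (1 : ℂ)) j) * X (t j)) + PP e = PP e₁ := by
    unfold PP
    rw [he₁, Fintype.sum_sum_type, add_comm]
    congr 1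
    refine Finset.sum_congr rfl fun j _ => ?_
    rw [Sum.elim_inr, C_1, one_mul]
    rfl
  rw [h3] at h1
  have h4 := S.trans h1 h2
  simpa only [C_1, one_mul] using h4

end Pool.Agent.Zk37.HG
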