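import Pool.Agent.N101.CB.Chain

set_option autoImplicit false

/-! # The double step: `∑ x ^ (e_j) + L` with some monomials divisible by `x ^ a` -/

namespace Pool.Agent.Zk37.HG

open MvPolynomial
open Pool.Agent.N101.CB (stp)
open Pool.Agent.N101.CB.RED (E G E_c E_n G_c G_0 G_1 E_eq ne01 neC sum2)

/-- an abstract relation, compatible with the steps -/
structure Sys where
  R : ∀ {n m : ℕ}, MvPolynomial (Fin n) ℂ → MvPolynomial (Fin m) ℂ → ℕ → Prop
  refl : ∀ {n : ℕ} (f : MvPolynomial (Fin n) ℂ), R f f 0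
  trans : ∀ {n m l κ κ' : ℕ} {f : MvPolynomial (Fin n) ℂ} {g : MvPolynomial (Fin m) ℂ}
    {h : MvPolynomial (Fin l) ℂ}, R f g κ → R g h κ' → R f h (κ + κ')
  step : ∀ {n : ℕ} (f u v : MvPolynomial (Fin n) ℂ), R f (stp f u v) 1

/-- the old variables -/
def cc {n : ℕ} (i : Fin n) : Fin (n + 2 + 2) := Fin.castAdd 2 (Fin.castAdd 2 i)

/-- the new variables `t', w', t, w` -/
def vT' (n : ℕ) : Fin (n + 2 + 2) := Fin.castAdd 2 (Fin.natAdd n 0)
def vW' (n : ℕ) : Fin (n + 2 + 2) := Fin.castAdd 2 (Fin.natAdd n 1)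
def vT (n : ℕ) : Fin (n + 2 + 2) := Fin.natAdd (n + 2) 0
def vW (n : ℕ) : Fin (n + 2 + 2) := Fin.natAdd (n + 2) 1

theorem cc_inj {n : ℕ} : Function.Injective (cc : Fin n → Fin (n + 2 + 2)) := by
  intro a b h
  exact Fin.castAdd_injective n 2 (Fin.castAdd_injective (n + 2) 2 h)

/-- the result of two steps -/
noncomputable def dst {n : ℕ} (f a V : MvPolynomial (Fin n) ℂ) : MvPolynomial (Fin (n + 2 + 2)) ℂ :=
  stp (stp f (-a) (-V)) (-X (Fin.natAdd n 1)) (rename (Fin.castAdd 2) V)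

theorem Sys.dst (S : Sys) {n : ℕ} (f a V : MvPolynomial (Fin n) ℂ) : S.R f (dst f a V) 2 :=
  S.trans (S.step f (-a) (-V)) (S.step _ _ _)

theorem ren_ren {n : ℕ} (f : MvPolynomial (Fin n) ℂ) :
    rename (Fin.castAdd 2) (rename (Fin.castAdd 2) f) = rename cc f := by
  rw [rename_rename]
  rfl

theorem dst_eq {n : ℕ} (g a V : MvPolynomial (Fin n) ℂ) :
    dst (g + V * a) a V = rename cc g + X (vT' n) * X (vW' n) + X (vT' n) * rename cc a +
      X (vT n) * X (vW n) + X (vT n) * X (vW' n) + rename cc V * X (vW n) := by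
  unfold dst stp
  simp only [map_add, map_mul, map_sub, map_neg, rename_X, ren_ren]
  simp only [vT', vW', vT, vW]
  ring

/-- exponents in the new variables -/
noncomputable def gg {n : ℕ} (m : Fin n →₀ ℕ) (p q r s : ℕ) : Fin (n + 2 + 2) →₀ ℕ := G (G m p q) r s

theorem mono_G {n : ℕ} (m : Fin n →₀ ℕ) (p q : ℕ) :
    (monomial (G m p q) 1 : MvPolynomial (Fin (n + 2)) ℂ) =
      rename (Fin.castAdd 2) (monomial m 1) * X (Fin.natAdd n 0) ^ p * X (Fin.natAdd n 1) ^ q := by
  unfold G E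
  rw [monomial_add_single, monomial_add_single, rename_monomial]

theorem mono_gg {n : ℕ} (m : Fin n →₀ ℕ) (p q r s : ℕ) :
    (monomial (gg m p q r s) 1 : MvPolynomial (Fin (n + 2 + 2)) ℂ) =
      rename cc (monomial m 1) * X (vT' n) ^ p * X (vW' n) ^ q * X (vT n) ^ r * X (vW n) ^ s := by
  unfold gg
  rw [mono_G, mono_G]
  simp only [map_mul, map_pow, rename_X, ren_ren]
  rfl

theorem gg_cc {n : ℕ} (m : Fin n →₀ ℕ) (p q r s : ℕ) (i : Fin n) : gg m p q r s (cc i) = m i := by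
  unfold gg cc
  rw [G_c, G_c]

theorem gg_T' {n : ℕ} (m : Fin n →₀ ℕ) (p q r s : ℕ) : gg m p q r s (vT' n) = p := by
  unfold gg vT'
  rw [G_c, G_0]

theorem gg_W' {n : ℕ} (m : Fin n →₀ ℕ) (p q r s : ℕ) : gg m p q r s (vW' n) = q := by
  unfold gg vW'
  rw [G_c, G_1]

theorem gg_T {n : ℕ} (m : Fin n →₀ ℕ) (p q r s : ℕ) : gg m p q r s (vT n) = r := by
  unfold gg vT
  rw [G_0]

theorem gg_W {n : ℕ} (m : Fin n →₀ ℕ) (p q r s : ℕ) : gg m p q r s (vW n) = s := by
  unfold gg vW
  rw [G_1]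

/-- every variable is old or one of the four new ones -/
theorem cases4 {n : ℕ} {P : Fin (n + 2 + 2) → Prop} (h0 : ∀ i, P (cc i)) (h1 : P (vT' n)) (h2 : P (vW' n))
    (h3 : P (vT n)) (h4 : P (vW n)) : ∀ i, P i := by
  intro i
  refine Fin.addCases (fun j => ?_) (fun j => ?_) i
  · refine Fin.addCases (fun k => h0 k) (fun k => ?_) j
    fin_cases k
    · exact h1
    · exact h2
  · fin_cases j
    · exact h3
    · exact h4

theorem gg_ext {n : ℕ} {m m' : Fin n →₀ ℕ} {p q r s p' q' r' s' : ℕ} (h : gg m p q r s = gg m' p' q' r' s') :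
    m = m' ∧ p = p' ∧ q = q' ∧ r = r' ∧ s = s' := by
  refine ⟨Finsupp.ext fun i => ?_, ?_, ?_, ?_, ?_⟩
  · have := DFunLike.congr_fun h (cc i)
    rwa [gg_cc, gg_cc] at this
  · have := DFunLike.congr_fun h (vT' n)
    rwa [gg_T', gg_T'] at this
  · have := DFunLike.congr_fun h (vW' n)
    rwa [gg_W', gg_W'] at this
  · have := DFunLike.congr_fun h (vT n)
    rwa [gg_T, gg_T] at this
  · have := DFunLike.congr_fun h (vW n)
    rwa [gg_W, gg_W] at this

theorem sum4 {n : ℕ} (f : Fin (n + 2 + 2) → ℕ) :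
    ∑ i, f i = (∑ i : Fin n, f (cc i)) + f (vT' n) + f (vW' n) + f (vT n) + f (vW n) := by
  rw [sum2, sum2]
  rfl

theorem gg_single {n : ℕ} (i : Fin n) : gg (Finsupp.single i 1) 0 0 0 0 = Finsupp.single (cc i) 1 := by
  have h := gg_cc (Finsupp.single i 1) 0 0 0 0 (n := n)
  refine Finsupp.ext (cases4 (fun j => ?_) ?_ ?_ ?_ ?_)
  · rw [gg_cc, Finsupp.single_apply, Finsupp.single_apply]
    by_cases hij : i = j
    · rw [if_pos hij, if_pos (congrArg cc hij)]
    · rw [if_neg hij, if_neg fun h => hij (cc_inj h)]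
  · rw [gg_T', Finsupp.single_apply, if_neg]
    intro h
    exact neC i 0 (Fin.castAdd_injective _ 2 h).symm
  · rw [gg_W', Finsupp.single_apply, if_neg]
    intro h
    exact neC i 1 (Fin.castAdd_injective _ 2 h).symm
  · rw [gg_T, Finsupp.single_apply, if_neg]
    intro h
    exact neC (Fin.castAdd 2 i) 0 h.symm
  · rw [gg_W, Finsupp.single_apply, if_neg]
    intro h
    exact neC (Fin.castAdd 2 i) 1 h.symm

section
variable {n : ℕ} {ι : Type} (e : ι → Fin n →₀ ℕ) (B : ι → Prop) [DecidablePred B] (a : Fin n →₀ ℕ)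

/-- the new family of exponents -/
noncomputable def ext : ι ⊕ Fin 4 → Fin (n + 2 + 2) →₀ ℕ :=
  Sum.elim (fun j => if B j then gg (e j - a) 0 0 0 1 else gg (e j) 0 0 0 0)
    ![gg 0 1 1 0 0, gg a 1 0 0 0, gg 0 0 0 1 1, gg 0 0 1 1 0]

theorem ext_l (j : ι) : ext e B a (Sum.inl j) =
    if B j then gg (e j - a) 0 0 0 1 else gg (e j) 0 0 0 0 := rfl
theorem ext_r0 : ext e B a (Sum.inr 0) = gg 0 1 1 0 0 := rfl
theorem ext_r1 : ext e B a (Sum.inr 1) = gg a 1 0 0 0 := rfl
theorem ext_r2 : ext e B a (Sum.inr 2) = gg 0 0 0 1 1 := rfl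
theorem ext_r3 : ext e B a (Sum.inr 3) = gg 0 0 1 1 0 := rfl

theorem ext_inj (he : Function.Injective e) (hB : ∀ j, B j → a ≤ e j) : Function.Injective (ext e B a) := by
  have hl : ∀ j, (ext e B a (Sum.inl j)) (vT' n) = 0 ∧ (ext e B a (Sum.inl j)) (vT n) = 0 := by
    intro j
    rw [ext_l]
    split_ifs
    · exact ⟨gg_T' _ _ _ _ _, gg_T _ _ _ _ _⟩
    · exact ⟨gg_T' _ _ _ _ _, gg_T _ _ _ _ _⟩
  have hr : ∀ k : Fin 4, (ext e B a (Sum.inr k)) (vT' n) + (ext e B a (Sum.inr k)) (vT n) = 1 := by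
    intro k
    fin_cases k
    · show (ext e B a (Sum.inr 0)) (vT' n) + (ext e B a (Sum.inr 0)) (vT n) = 1
      rw [ext_r0, gg_T', gg_T]
    · show (ext e B a (Sum.inr 1)) (vT' n) + (ext e B a (Sum.inr 1)) (vT n) = 1
      rw [ext_r1, gg_T', gg_T]
    · show (ext e B a (Sum.inr 2)) (vT' n) + (ext e B a (Sum.inr 2)) (vT n) = 1
      rw [ext_r2, gg_T', gg_T]
    · show (ext e B a (Sum.inr 3)) (vT' n) + (ext e B a (Sum.inr 3)) (vT n) = 1
      rw [ext_r3, gg_T', gg_T]
  have hrr : ∀ k k' : Fin 4, ext e B a (Sum.inr k) = ext e B a (Sum.inr k') → k = k' := by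
    intro k k' h
    have c : ∀ k : Fin 4, ((ext e B a (Sum.inr k)) (vT' n), (ext e B a (Sum.inr k)) (vW' n),
        (ext e B a (Sum.inr k)) (vW n)) = (![((1 : ℕ), (1 : ℕ), (0 : ℕ)), (1, 0, 0), (0, 0, 1), (0, 1, 0)] k) := by
      intro k
      fin_cases k
      · show ((ext e B a (Sum.inr 0)) (vT' n), (ext e B a (Sum.inr 0)) (vW' n),
          (ext e B a (Sum.inr 0)) (vW n)) = (1, 1, 0)
        rw [ext_r0, gg_T', gg_W', gg_W]
      · show ((ext e B a (Sum.inr 1)) (vT' n), (ext e B a (Sum.inr 1)) (vW' n),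
          (ext e B a (Sum.inr 1)) (vW n)) = (1, 0, 0)
        rw [ext_r1, gg_T', gg_W', gg_W]
      · show ((ext e B a (Sum.inr 2)) (vT' n), (ext e B a (Sum.inr 2)) (vW' n),
          (ext e B a (Sum.inr 2)) (vW n)) = (0, 0, 1)
        rw [ext_r2, gg_T', gg_W', gg_W]
      · show ((ext e B a (Sum.inr 3)) (vT' n), (ext e B a (Sum.inr 3)) (vW' n),
          (ext e B a (Sum.inr 3)) (vW n)) = (0, 1, 0)
        rw [ext_r3, gg_T', gg_W', gg_W]
    have h1 := c k
    rw [h, c k'] at h1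
    revert h1
    fin_cases k <;> fin_cases k' <;> simp
  intro x y hxy
  rcases x with j | k
  · rcases y with j' | k'
    · rw [ext_l, ext_l] at hxy
      congr 1
      apply he
      split_ifs at hxy with h1 h2 h2
      · obtain ⟨h3, -⟩ := gg_ext hxy
        have h4 := congrArg (· + a) h3
        simpa [tsub_add_cancel_of_le (hB j h1), tsub_add_cancel_of_le (hB j' h2)] using h4
      · obtain ⟨-, -, -, -, h3⟩ := gg_ext hxy
        omega
      · obtain ⟨-, -, -, -, h3⟩ := gg_ext hxy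
        omega
      · exact (gg_ext hxy).1
    · exfalso
      have h1 := hl j
      have h2 := hr k'
      rw [← hxy] at h2
      omega
  · rcases y with j' | k'
    · exfalso
      have h1 := hl j'
      have h2 := hr k
      rw [hxy] at h2
      omega
    · congr 1
      exact hrr k k' hxy

theorem ext_ne0 (he : ∀ j, e j ≠ 0) : ∀ x, ext e B a x ≠ 0 := by
  intro x hx
  rcases x with j | k
  · rw [ext_l] at hx
    split_ifs at hx with h1
    · have := DFunLike.congr_fun hx (vW n)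
      rw [gg_W, Finsupp.zero_apply] at this
      omega
    · apply he j
      ext i
      have := DFunLike.congr_fun hx (cc i)
      rwa [gg_cc] at this
  · have h1 := DFunLike.congr_fun hx (vT' n)
    have h2 := DFunLike.congr_fun hx (vT n)
    fin_cases k
    · change (ext e B a (Sum.inr 0)) (vT' n) = 0 at h1
      rw [ext_r0, gg_T'] at h1
      omega
    · change (ext e B a (Sum.inr 1)) (vT' n) = 0 at h1
      rw [ext_r1, gg_T'] at h1
      omega
    · change (ext e B a (Sum.inr 2)) (vT n) = 0 at h2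
      rw [ext_r2, gg_T] at h2
      omega
    · change (ext e B a (Sum.inr 3)) (vT n) = 0 at h2
      rw [ext_r3, gg_T] at h2
      omega

theorem single_cc_ne {i : Fin n} {m : Fin n →₀ ℕ} {p q r s : ℕ}
    (h : gg m p q r s = Finsupp.single (cc i) 1) : m = Finsupp.single i 1 ∧ p = 0 ∧ q = 0 ∧ r = 0 ∧ s = 0 := by
  rw [← gg_single] at h
  exact gg_ext h

theorem ext_sing {i : Fin n} (he : ∀ j, e j ≠ Finsupp.single i 1) :
    ∀ x, ext e B a x ≠ Finsupp.single (cc i) 1 := by
  intro x hx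
  rcases x with j | k
  · rw [ext_l] at hx
    split_ifs at hx with h1
    · obtain ⟨-, -, -, -, h⟩ := single_cc_ne hx
      omega
    · exact he j (single_cc_ne hx).1
  · fin_cases k
    · change ext e B a (Sum.inr 0) = _ at hx
      rw [ext_r0] at hx
      obtain ⟨-, h, -, -, -⟩ := single_cc_ne hx
      omega
    · change ext e B a (Sum.inr 1) = _ at hx
      rw [ext_r1] at hx
      obtain ⟨-, h, -, -, -⟩ := single_cc_ne hx
      omega
    · change ext e B a (Sum.inr 2) = _ at hx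
      rw [ext_r2] at hx
      obtain ⟨-, -, -, h, -⟩ := single_cc_ne hx
      omega
    · change ext e B a (Sum.inr 3) = _ at hx
      rw [ext_r3] at hx
      obtain ⟨-, -, -, h, -⟩ := single_cc_ne hx
      omega

/-- `∑_j x ^ (e_j)` -/
noncomputable def PP {n : ℕ} {ι : Type} [Fintype ι] (e : ι → Fin n →₀ ℕ) : MvPolynomial (Fin n) ℂ :=
  ∑ j, monomial (e j) 1

theorem dst_PP [Fintype ι] (L : MvPolynomial (Fin n) ℂ) (hB : ∀ j, B j → a ≤ e j) :
    dst (PP e + L) (monomial a 1) (∑ j, if B j then monomial (e j - a) 1 else 0) =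
      PP (ext e B a) + rename cc L := by
  have h1 : PP e + L = ((∑ j, if B j then 0 else monomial (e j) 1) + L) +
      (∑ j, if B j then monomial (e j - a) 1 else 0) * monomial a (1 : ℂ) := by
    have : PP e = (∑ j, if B j then 0 else monomial (e j) 1) +
        (∑ j, if B j then monomial (e j - a) 1 else 0) * monomial a (1 : ℂ) := by
      unfold PP
      rw [Finset.sum_mul, ← Finset.sum_add_distrib]
      refine Finset.sum_congr rfl fun j _ => ?_
      by_cases h : B j
      · rw [if_pos h, if_pos h, zero_add, monomial_mul, one_mul, tsub_add_cancel_of_le (hB j h)]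
      · rw [if_neg h, if_neg h, zero_mul, add_zero]
    rw [this]
    ring
  rw [h1, dst_eq]
  have h2 : PP (ext e B a) = (∑ j, monomial (ext e B a (Sum.inl j)) 1) +
      (monomial (gg 0 1 1 0 0) 1 + monomial (gg a 1 0 0 0) 1 + monomial (gg 0 0 0 1 1) 1 +
        monomial (gg 0 0 1 1 0) 1) := by
    unfold PP
    rw [Fintype.sum_sum_type, Fin.sum_univ_four, ext_r0, ext_r1, ext_r2, ext_r3]
  have h3 : (∑ j, monomial (ext e B a (Sum.inl j)) (1 : ℂ)) =
      rename cc (∑ j, if B j then 0 else monomial (e j) 1) +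
        rename cc (∑ j, if B j then monomial (e j - a) 1 else 0) * X (vW n) := by
    rw [map_sum, map_sum, Finset.sum_mul, ← Finset.sum_add_distrib]
    refine Finset.sum_congr rfl fun j _ => ?_
    rw [ext_l]
    by_cases h : B j
    · rw [if_pos h, if_pos h, if_pos h, mono_gg, map_zero]
      ring
    · rw [if_neg h, if_neg h, if_neg h, mono_gg, map_zero]
      ring
  rw [h2, h3, mono_gg, mono_gg, mono_gg, mono_gg, map_add]
  have h0 : rename cc (monomial (0 : Fin n →₀ ℕ) (1 : ℂ)) = 1 := by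
    rw [show (monomial (0 : Fin n →₀ ℕ) (1 : ℂ)) = 1 from rfl, map_one]
  rw [h0]
  ring

end

end Pool.Agent.Zk37.HG
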