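import Pool.Agent.Zk37.HG.Comb

set_option autoImplicit false

/-! # Polynomials with rational coefficients -/

namespace Pool.Agent.Zk37.HG

open MvPolynomial
open Pool.Agent.N101.CB (stp)
open Pool.Agent.N101.CB.RED (G)

/-- sums of monomials minus sums of monomials -/
def Rep {n : ℕ} (g : MvPolynomial (Fin n) ℂ) : Prop :=
  ∃ (r s : ℕ) (p : Fin r → Fin n →₀ ℕ) (q : Fin s → Fin n →₀ ℕ), g = PP p - PP q

theorem PP_append {n r s : ℕ} (p : Fin r → Fin n →₀ ℕ) (q : Fin s → Fin n →₀ ℕ) :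
    PP (Fin.append p q) = PP p + PP q := by
  unfold PP
  rw [Fin.sum_univ_add]
  simp only [Fin.append_left, Fin.append_right]

theorem Rep.zero {n : ℕ} : Rep (0 : MvPolynomial (Fin n) ℂ) :=
  ⟨0, 0, fun j => j.elim0, fun j => j.elim0, by
    unfold PP
    simp⟩

theorem Rep.add {n : ℕ} {g h : MvPolynomial (Fin n) ℂ} (hg : Rep g) (hh : Rep h) : Rep (g + h) := by
  obtain ⟨r, s, p, q, rfl⟩ := hg
  obtain ⟨r', s', p', q', rfl⟩ := hh
  refine ⟨r + r', s + s', Fin.append p p', Fin.append q q', ?_⟩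
  rw [PP_append, PP_append]
  ring

theorem Rep.neg {n : ℕ} {g : MvPolynomial (Fin n) ℂ} (hg : Rep g) : Rep (-g) := by
  obtain ⟨r, s, p, q, rfl⟩ := hg
  exact ⟨s, r, q, p, by ring⟩

theorem Rep.mono {n : ℕ} (m : Fin n →₀ ℕ) : Rep (monomial m (1 : ℂ)) :=
  ⟨1, 0, fun _ => m, fun j => j.elim0, by
    unfold PP
    simp⟩

theorem Rep.nmul {n : ℕ} {g : MvPolynomial (Fin n) ℂ} (hg : Rep g) (k : ℕ) : Rep (C (k : ℂ) * g) := by
  induction k with
  | zero =>
    rw [Nat.cast_zero, C_0, zero_mul]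
    exact Rep.zero
  | succ k ih =>
    have : C ((k + 1 : ℕ) : ℂ) * g = C (k : ℂ) * g + g := by
      push_cast
      rw [map_add, C_1]
      ring
    rw [this]
    exact ih.add hg

theorem Rep.zmul {n : ℕ} {g : MvPolynomial (Fin n) ℂ} (hg : Rep g) (k : ℤ) : Rep (C (k : ℂ) * g) := by
  rcases Int.eq_nat_or_neg k with ⟨m, rfl | rfl⟩
  · simpa using hg.nmul m
  · have h := (hg.nmul m).neg
    have e : C (((-(m : ℤ) : ℤ)) : ℂ) * g = -(C (m : ℂ) * g) := by
      push_cast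
      rw [map_neg, neg_mul]
    rw [e]
    exact h

/-- a multiple of a polynomial with rational coefficients -/
theorem rat_rep {n : ℕ} (f : MvPolynomial (Fin n) ℚ) :
    ∃ D : ℕ, D ≠ 0 ∧ Rep (C (D : ℂ) * map (algebraMap ℚ ℂ) f) := by
  induction f using MvPolynomial.induction_on' with
  | monomial u a =>
    refine ⟨a.den, a.den_ne_zero, ?_⟩
    have h : C (a.den : ℂ) * map (algebraMap ℚ ℂ) (monomial u a) = C ((a.num : ℤ) : ℂ) * monomial u 1 := by
      rw [map_monomial, C_mul_monomial, C_mul_monomial, mul_one]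
      congr 1
      have h1 : (a : ℚ) * a.den = a.num := Rat.mul_den_eq_num a
      have h2 := congrArg (fun x : ℚ => (x : ℂ)) h1
      push_cast at h2
      rw [eq_ratCast, mul_comm]
      exact h2
    rw [h]
    exact (Rep.mono u).zmul _
  | add p q hp hq =>
    obtain ⟨D, hD, h1⟩ := hp
    obtain ⟨D', hD', h2⟩ := hq
    refine ⟨D * D', mul_ne_zero hD hD', ?_⟩
    have h : C ((D * D' : ℕ) : ℂ) * map (algebraMap ℚ ℂ) (p + q) =
        C (D' : ℂ) * (C (D : ℂ) * map (algebraMap ℚ ℂ) p) + C (D : ℂ) * (C (D' : ℂ) * map (algebraMap ℚ ℂ) q) := by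
      push_cast
      rw [map_add, map_mul]
      ring
    rw [h]
    exact (h1.nmul D').add (h2.nmul D)

theorem PP_reindex {n : ℕ} {ι : Type} [Fintype ι] (e : ι → Fin n →₀ ℕ) :
    ∃ (r : ℕ) (m : Fin r → Fin n →₀ ℕ), PP e = ∑ j, monomial (m j) 1 := by
  refine ⟨Fintype.card ι, fun k => e ((Fintype.equivFin ι).symm k), ?_⟩
  unfold PP
  exact ((Fintype.equivFin ι).symm.sum_comp (fun j => monomial (e j) (1 : ℂ))).symm

/-- **Hypergraphs for polynomials with integer coefficients.** -/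
theorem rep_hyp (S : Sys) {n : ℕ} {g : MvPolynomial (Fin n) ℂ} (hg : Rep g) : ∃ (N κ : ℕ)
    (E : Finset (Finset (Fin N))), N = n + 2 * κ ∧ Hyp E ∧ S.R g (edgePoly E) κ := by
  obtain ⟨r, s, p, q, rfl⟩ := hg
  obtain ⟨e, he⟩ : ∃ e : Fin r ⊕ (Fin s ⊕ Fin 2) → Fin (n + 2) →₀ ℕ,
      e = Sum.elim (fun j => G (p j) 0 0) (Sum.elim (fun j => G (q j) 0 1) ![G 0 1 1, G 0 1 0]) := ⟨_, rfl⟩
  have h1 : stp (PP p - PP q) (-1) (PP q) = PP e := by
    have e0 : rename (Fin.castAdd 2) (monomial (0 : Fin n →₀ ℕ) (1 : ℂ)) = 1 := by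
      rw [show (monomial (0 : Fin n →₀ ℕ) (1 : ℂ)) = 1 from rfl, map_one]
    unfold stp
    rw [he]
    unfold PP
    rw [Fintype.sum_sum_type, Fintype.sum_sum_type, Fin.sum_univ_two]
    simp only [Sum.elim_inl, Sum.elim_inr, Matrix.cons_val_zero, Matrix.cons_val_one, mono_G, e0]
    rw [map_sub, map_neg, map_one, map_sum, map_sum]
    simp only [pow_zero, pow_one, mul_one, one_mul]
    rw [← Finset.sum_mul]
    ring
  have h2 := S.step (PP p - PP q) (-1) (PP q)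
  rw [h1] at h2
  obtain ⟨r', m, hm⟩ := PP_reindex e
  rw [hm] at h2
  obtain ⟨N, κ, E, hN, hE, h3⟩ := universal_one S m
  exact ⟨N, 1 + κ, E, by omega, hE, S.trans h2 h3⟩

end Pool.Agent.Zk37.HG
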