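import Pool.Agent.Zk37.HG.Red2

set_option autoImplicit false

/-! # Extraction of the coefficients -/

namespace Pool.Agent.Zk37.HG

open MvPolynomial

/-- `dst` with a constant: the monomial `c x ^ μ` -/
theorem dst_coeff {n : ℕ} (g : MvPolynomial (Fin n) ℂ) (c : ℂ) (μ : Fin n →₀ ℕ) :
    dst (g + C c * monomial μ 1) (C c) (monomial μ 1) = rename cc g + C c * X (vT' n) +
      (monomial (gg 0 1 1 0 0) 1 + monomial (gg μ 0 0 0 1) 1 + monomial (gg 0 0 0 1 1) 1 +
        monomial (gg 0 0 1 1 0) 1) := by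
  have h1 : g + C c * monomial μ (1 : ℂ) = g + monomial μ 1 * C c := by rw [mul_comm]
  have h0 : rename cc (monomial (0 : Fin n →₀ ℕ) (1 : ℂ)) = 1 := by
    rw [show (monomial (0 : Fin n →₀ ℕ) (1 : ℂ)) = 1 from rfl, map_one]
  rw [h1, dst_eq, mono_gg, mono_gg, mono_gg, mono_gg, h0, rename_C]
  ring

/-- the exponents which appear -/
noncomputable def fo {n : ℕ} (μ : Fin n →₀ ℕ) : Fin 4 → Fin (n + 2 + 2) →₀ ℕ :=
  ![gg 0 1 1 0 0, gg μ 0 0 0 1, gg 0 0 0 1 1, gg 0 0 1 1 0]

theorem fo_inj {n : ℕ} (μ : Fin n →₀ ℕ) : Function.Injective (fo μ) := by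
  intro k k' h
  have c : ∀ k : Fin 4, (fo μ k (vT' n), fo μ k (vW' n), fo μ k (vT n)) =
      (![((1 : ℕ), (1 : ℕ), (0 : ℕ)), (0, 0, 0), (0, 0, 1), (0, 1, 1)] k) := by
    intro k
    fin_cases k
    · show ((gg 0 1 1 0 0 : Fin (n + 2 + 2) →₀ ℕ) (vT' n), (gg 0 1 1 0 0 : Fin (n + 2 + 2) →₀ ℕ) (vW' n),
        (gg 0 1 1 0 0 : Fin (n + 2 + 2) →₀ ℕ) (vT n)) = (1, 1, 0)
      rw [gg_T', gg_W', gg_T]
    · show ((gg μ 0 0 0 1) (vT' n), (gg μ 0 0 0 1) (vW' n), (gg μ 0 0 0 1) (vT n)) = (0, 0, 0)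
      rw [gg_T', gg_W', gg_T]
    · show ((gg 0 0 0 1 1 : Fin (n + 2 + 2) →₀ ℕ) (vT' n), (gg 0 0 0 1 1 : Fin (n + 2 + 2) →₀ ℕ) (vW' n),
        (gg 0 0 0 1 1 : Fin (n + 2 + 2) →₀ ℕ) (vT n)) = (0, 0, 1)
      rw [gg_T', gg_W', gg_T]
    · show ((gg 0 0 1 1 0 : Fin (n + 2 + 2) →₀ ℕ) (vT' n), (gg 0 0 1 1 0 : Fin (n + 2 + 2) →₀ ℕ) (vW' n),
        (gg 0 0 1 1 0 : Fin (n + 2 + 2) →₀ ℕ) (vT n)) = (0, 1, 1)
      rw [gg_T', gg_W', gg_T]
  have h1 := c k
  rw [h, c k'] at h1
  revert h1
  fin_cases k <;> fin_cases k' <;> simp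

/-- each of them contains a new variable -/
theorem fo_new {n : ℕ} (μ : Fin n →₀ ℕ) (k : Fin 4) : fo μ k (vT n) ≠ 0 ∨ fo μ k (vW n) ≠ 0 ∨ fo μ k (vT' n) ≠ 0 := by
  fin_cases k
  · right; right
    show (gg 0 1 1 0 0 : Fin (n + 2 + 2) →₀ ℕ) (vT' n) ≠ 0
    rw [gg_T']
    exact one_ne_zero
  · right; left
    show (gg μ 0 0 0 1) (vW n) ≠ 0
    rw [gg_W]
    exact one_ne_zero
  · left
    show (gg 0 0 0 1 1 : Fin (n + 2 + 2) →₀ ℕ) (vT n) ≠ 0
    rw [gg_T]
    exact one_ne_zero
  · left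
    show (gg 0 0 1 1 0 : Fin (n + 2 + 2) →₀ ℕ) (vT n) ≠ 0
    rw [gg_T]
    exact one_ne_zero

/-- and one which is not `t'` -/
theorem fo_new' {n : ℕ} (μ : Fin n →₀ ℕ) (k : Fin 4) : fo μ k (vT n) ≠ 0 ∨ fo μ k (vW n) ≠ 0 ∨ fo μ k (vW' n) ≠ 0 := by
  fin_cases k
  · right; right
    show (gg 0 1 1 0 0 : Fin (n + 2 + 2) →₀ ℕ) (vW' n) ≠ 0
    rw [gg_W']
    exact one_ne_zero
  · right; left
    show (gg μ 0 0 0 1) (vW n) ≠ 0
    rw [gg_W]
    exact one_ne_zero
  · left
    show (gg 0 0 0 1 1 : Fin (n + 2 + 2) →₀ ℕ) (vT n) ≠ 0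
    rw [gg_T]
    exact one_ne_zero
  · left
    show (gg 0 0 1 1 0 : Fin (n + 2 + 2) →₀ ℕ) (vT n) ≠ 0
    rw [gg_T]
    exact one_ne_zero

theorem vne {n : ℕ} : (∀ i : Fin n, cc i ≠ vT' n) ∧ (∀ i : Fin n, cc i ≠ vW' n) ∧ (∀ i : Fin n, cc i ≠ vT n) ∧
    (∀ i : Fin n, cc i ≠ vW n) ∧ vT' n ≠ vW' n ∧ vT' n ≠ vT n ∧ vT' n ≠ vW n := by
  have h : ∀ i : Fin n, ((cc i : Fin (n + 2 + 2)) : ℕ) < n := fun i => by
    unfold cc
    simp
  have e1 : ((vT' n : Fin (n + 2 + 2)) : ℕ) = n := by
    unfold vT'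
    simp
  have e2 : ((vW' n : Fin (n + 2 + 2)) : ℕ) = n + 1 := by
    unfold vW'
    simp
  have e3 : ((vT n : Fin (n + 2 + 2)) : ℕ) = n + 2 := by
    unfold vT
    simp
  have e4 : ((vW n : Fin (n + 2 + 2)) : ℕ) = n + 3 := by
    unfold vW
    simp
  refine ⟨fun i h' => ?_, fun i h' => ?_, fun i h' => ?_, fun i h' => ?_, fun h' => ?_, fun h' => ?_, fun h' => ?_⟩
  · have := congrArg Fin.val h'
    have := h i
    omega
  · have := congrArg Fin.val h'
    have := h i
    omega
  · have := congrArg Fin.val h'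
    have := h i
    omega
  · have := congrArg Fin.val h'
    have := h i
    omega
  · have := congrArg Fin.val h'
    omega
  · have := congrArg Fin.val h'
    omega
  · have := congrArg Fin.val h'
    omega

theorem dg_mapDomain {n N : ℕ} {ρ : Fin n → Fin N} (hρ : Function.Injective ρ) (col : Fin N → Fin 3) (c : Fin 3)
    (m : Fin n →₀ ℕ) : dg col c (m.mapDomain ρ) = dg (fun i => col (ρ i)) c m := by
  classical
  unfold dg
  rw [← Finset.sum_subset (Finset.subset_univ (Finset.univ.image ρ))]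
  · rw [Finset.sum_image (fun a _ b _ h => hρ h)]
    refine Finset.sum_congr rfl fun i _ => ?_
    rw [Finsupp.mapDomain_apply hρ]
  · intro j _ hj
    have h1 : (m.mapDomain ρ) j = 0 := by
      refine Finsupp.mapDomain_of_notMem_range _ _ ?_
      rintro ⟨i, rfl⟩
      exact hj (Finset.mem_image_of_mem _ (Finset.mem_univ i))
    rw [h1]
    split_ifs <;> rfl

theorem phase1 (S : Sys) : ∀ (r : ℕ) {n : ℕ} (m : Fin r → Fin n →₀ ℕ) (col₀ : Fin n → Fin 3),
    (∀ j i, m j i ≠ 0 → col₀ i = 1) → ∃ (N κ : ℕ) (ρ : Fin n → Fin N) (t : Fin r → Fin N) (ι : Type)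
      (_ : Fintype ι) (e : ι → Fin N →₀ ℕ) (col : Fin N → Fin 3), N = n + 2 * κ ∧
      Function.Injective ρ ∧ Function.Injective t ∧ (∀ j i, t j ≠ ρ i) ∧ (∀ i, col (ρ i) = col₀ i) ∧
      Function.Injective e ∧ (∀ k j, e k ≠ Finsupp.single (t j) 1) ∧ (∀ k, Inv2 col (e k)) ∧
      (∀ k, ∃ i, (∀ i', i ≠ ρ i') ∧ e k i ≠ 0) ∧
      ∀ (c : Fin r → ℂ) (g : MvPolynomial (Fin n) ℂ), S.R ((∑ j, C (c j) * monomial (m j) 1) + g)
        ((∑ j, C (c j) * X (t j)) + PP e + rename ρ g) κ := by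
  classical
  intro r
  induction r with
  | zero =>
    intro n m col₀ _
    refine ⟨n, 0, id, fun j => j.elim0, Fin 0, inferInstance, fun j => j.elim0, col₀, rfl,
      Function.injective_id, fun j => j.elim0, fun j => j.elim0, fun i => rfl, fun j => j.elim0,
      fun j => j.elim0, fun j => j.elim0, fun j => j.elim0, fun c g => ?_⟩
    unfold PP
    rw [Fin.sum_univ_zero, Fin.sum_univ_zero, Fin.sum_univ_zero, rename_id_apply, add_zero]
    exact S.refl _
  | succ r ih =>
    intro n m col₀ hcol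
    obtain ⟨v1, v2, v3, v4, v5, v6, v7⟩ := vne (n := n)
    obtain ⟨N, κ, ρ, t, ι, _, e, col, hN, hρ, ht, htρ, hcolρ, he, het, hI, hnew, hR⟩ :=
      ih (fun j : Fin r => gg (m j.castSucc) 0 0 0 0) (c4 col₀ 2 1 2 0) (by
        intro j
        refine cases4 (fun i hi => ?_) (fun hi => ?_) (fun hi => ?_) (fun hi => ?_) (fun hi => ?_)
        · rw [gg_cc] at hi
          rw [c4_cc]
          exact hcol _ i hi
        · exact absurd (gg_T' _ _ _ _ _) hi
        · exact absurd (gg_W' _ _ _ _ _) hi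
        · exact absurd (gg_T _ _ _ _ _) hi
        · exact absurd (gg_W _ _ _ _ _) hi)
    have hin : ∀ (x : Fin (n + 2 + 2) →₀ ℕ) (i : Fin (n + 2 + 2)), (x.mapDomain ρ) (ρ i) = x i := fun x i =>
      Finsupp.mapDomain_apply hρ _ _
    have hout : ∀ (x : Fin (n + 2 + 2) →₀ ℕ) (i : Fin N), (∀ i', i ≠ ρ i') → (x.mapDomain ρ) i = 0 := by
      intro x i hi
      refine Finsupp.mapDomain_of_notMem_range _ _ ?_
      rintro ⟨i', rfl⟩
      exact hi i' rfl
    have hcolρ' : (fun i => col (ρ i)) = c4 col₀ 2 1 2 0 := funext hcolρ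
    refine ⟨N, 2 + κ, ρ ∘ cc, Fin.snoc t (ρ (vT' n)), ι ⊕ Fin 4, inferInstance,
      Sum.elim e (fun k => (fo (m (Fin.last r)) k).mapDomain ρ), col, by omega, hρ.comp cc_inj, ?_, ?_, ?_, ?_,
      ?_, ?_, ?_, ?_⟩
    · -- injectivity of t
      intro j j' h
      induction j using Fin.lastCases with
      | last =>
        induction j' using Fin.lastCases with
        | last => rfl
        | cast j' =>
          rw [Fin.snoc_last, Fin.snoc_castSucc] at h
          exact absurd h.symm (htρ j' _)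
      | cast j =>
        induction j' using Fin.lastCases with
        | last =>
          rw [Fin.snoc_last, Fin.snoc_castSucc] at h
          exact absurd h (htρ j _)
        | cast j' =>
          rw [Fin.snoc_castSucc, Fin.snoc_castSucc] at h
          rw [ht h]
    · intro j i h
      induction j using Fin.lastCases with
      | last =>
        rw [Fin.snoc_last] at h
        exact v1 i (hρ h).symm
      | cast j =>
        rw [Fin.snoc_castSucc] at h
        exact htρ j _ h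
    · intro i
      rw [Function.comp_apply, hcolρ, c4_cc]
    · -- injectivity of e
      intro x y h
      rcases x with x | x
      · rcases y with y | y
        · exact congrArg _ (he h)
        · exfalso
          obtain ⟨i, hi, hi0⟩ := hnew x
          apply hi0
          have h' : e x = (fo (m (Fin.last r)) y).mapDomain ρ := h
          rw [h', hout _ i hi]
      · rcases y with y | y
        · exfalso
          obtain ⟨i, hi, hi0⟩ := hnew y
          apply hi0
          have h' : (fo (m (Fin.last r)) x).mapDomain ρ = e y := h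
          rw [← h', hout _ i hi]
        · exact congrArg _ (fo_inj _ (Finsupp.mapDomain_injective hρ h))
    · -- e k ≠ single (t j)
      intro k j h
      rcases k with k | k
      · have h' : e k = Finsupp.single ((Fin.snoc t (ρ (vT' n)) : Fin (r + 1) → Fin N) j) 1 := h
        induction j using Fin.lastCases with
        | last =>
          rw [Fin.snoc_last] at h'
          obtain ⟨i, hi, hi0⟩ := hnew k
          rw [h'] at hi0
          apply hi0
          simp [Ne.symm (hi (vT' n))]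
        | cast j =>
          rw [Fin.snoc_castSucc] at h'
          exact het k j h'
      · have h' : (fo (m (Fin.last r)) k).mapDomain ρ =
            Finsupp.single ((Fin.snoc t (ρ (vT' n)) : Fin (r + 1) → Fin N) j) 1 := h
        have h2 : ∀ i, fo (m (Fin.last r)) k i ≠ 0 → ρ i =
            (Fin.snoc t (ρ (vT' n)) : Fin (r + 1) → Fin N) j := by
          intro i hi
          by_contra hne
          apply hi
          rw [← hin, h']
          simp [Ne.symm hne]
        induction j using Fin.lastCases with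
        | last =>
          rw [Fin.snoc_last] at h2
          rcases fo_new' (m (Fin.last r)) k with h3 | h3 | h3
          · exact v6 (hρ (h2 _ h3)).symm
          · exact v7 (hρ (h2 _ h3)).symm
          · exact v5 (hρ (h2 _ h3)).symm
        | cast j =>
          rw [Fin.snoc_castSucc] at h2
          rcases fo_new (m (Fin.last r)) k with h3 | h3 | h3
          · exact htρ j _ (h2 _ h3).symm
          · exact htρ j _ (h2 _ h3).symm
          · exact htρ j _ (h2 _ h3).symm
    · -- invariants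
      intro k
      rcases k with k | k
      · exact hI k
      · show Inv2 col ((fo (m (Fin.last r)) k).mapDomain ρ)
        unfold Inv2
        rw [dg_mapDomain hρ, dg_mapDomain hρ, dg_mapDomain hρ, hcolρ']
        have z : ∀ c, dg col₀ c (0 : Fin n →₀ ℕ) = 0 := dg_zero col₀
        have z0 : dg col₀ 0 (m (Fin.last r)) = 0 := by
          by_contra hne
          obtain ⟨i, h1, h2⟩ := exists_of_dg col₀ hne
          rw [hcol _ i h2] at h1
          exact absurd h1 (by decide)
        have z2 : dg col₀ 2 (m (Fin.last r)) = 0 := by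
          by_contra hne
          obtain ⟨i, h1, h2⟩ := exists_of_dg col₀ hne
          rw [hcol _ i h2] at h1
          exact absurd h1 (by decide)
        fin_cases k
        · show dg _ 0 (gg 0 1 1 0 0) ≤ 1 ∧ dg _ 2 (gg 0 1 1 0 0) ≤ 1 ∧
            (2 ≤ dg _ 1 (gg 0 1 1 0 0) → dg _ 0 (gg 0 1 1 0 0) = 1)
          simp only [dg_gg, z]
          simp
        · show dg _ 0 (gg _ 0 0 0 1) ≤ 1 ∧ dg _ 2 (gg _ 0 0 0 1) ≤ 1 ∧
            (2 ≤ dg _ 1 (gg _ 0 0 0 1) → dg _ 0 (gg _ 0 0 0 1) = 1)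
          simp only [dg_gg, z0, z2]
          simp
        · show dg _ 0 (gg 0 0 0 1 1) ≤ 1 ∧ dg _ 2 (gg 0 0 0 1 1) ≤ 1 ∧
            (2 ≤ dg _ 1 (gg 0 0 0 1 1) → dg _ 0 (gg 0 0 0 1 1) = 1)
          simp only [dg_gg, z]
          simp
        · show dg _ 0 (gg 0 0 1 1 0) ≤ 1 ∧ dg _ 2 (gg 0 0 1 1 0) ≤ 1 ∧
            (2 ≤ dg _ 1 (gg 0 0 1 1 0) → dg _ 0 (gg 0 0 1 1 0) = 1)
          simp only [dg_gg, z]
          simp
    · -- new variables
      intro k
      rcases k with k | k
      · obtain ⟨i, hi, hi0⟩ := hnew k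
        exact ⟨i, fun i' => hi _, hi0⟩
      · show ∃ i, (∀ i', i ≠ (ρ ∘ cc) i') ∧ ((fo (m (Fin.last r)) k).mapDomain ρ) i ≠ 0
        rcases fo_new (m (Fin.last r)) k with h3 | h3 | h3
        · exact ⟨ρ (vT n), fun i' h => v3 i' (hρ h).symm, by rw [hin]; exact h3⟩
        · exact ⟨ρ (vW n), fun i' h => v4 i' (hρ h).symm, by rw [hin]; exact h3⟩
        · exact ⟨ρ (vT' n), fun i' h => v1 i' (hρ h).symm, by rw [hin]; exact h3⟩
    · -- the relation
      intro c g
      have h1 := hR (fun j => c j.castSucc) (rename cc g + C (c (Fin.last r)) * X (vT' n) +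
        ∑ k, monomial (fo (m (Fin.last r)) k) 1)
      have h2 := S.dst ((∑ j : Fin r, C (c j.castSucc) * monomial (m j.castSucc) 1) + g +
        C (c (Fin.last r)) * monomial (m (Fin.last r)) 1) (C (c (Fin.last r))) (monomial (m (Fin.last r)) 1)
      rw [dst_coeff] at h2
      have e1 : (∑ j, C (c j) * monomial (m j) 1) + g = (∑ j : Fin r, C (c j.castSucc) * monomial (m j.castSucc) 1) +
          g + C (c (Fin.last r)) * monomial (m (Fin.last r)) (1 : ℂ) := by
        rw [Fin.sum_univ_castSucc]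
        ring
      have e2 : rename cc ((∑ j : Fin r, C (c j.castSucc) * monomial (m j.castSucc) (1 : ℂ)) + g) +
          C (c (Fin.last r)) * X (vT' n) + (monomial (gg 0 1 1 0 0) 1 + monomial (gg (m (Fin.last r)) 0 0 0 1) 1 +
            monomial (gg 0 0 0 1 1) 1 + monomial (gg 0 0 1 1 0) 1) =
          (∑ j : Fin r, C (c j.castSucc) * monomial (gg (m j.castSucc) 0 0 0 0) 1) +
            (rename cc g + C (c (Fin.last r)) * X (vT' n) + ∑ k, monomial (fo (m (Fin.last r)) k) 1) := by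
        rw [Fin.sum_univ_four, map_add, map_sum]
        have e3 : ∀ j : Fin r, rename cc (C (c j.castSucc) * monomial (m j.castSucc) (1 : ℂ)) =
            C (c j.castSucc) * monomial (gg (m j.castSucc) 0 0 0 0) 1 := by
          intro j
          rw [map_mul, rename_C, mono_gg]
          ring
        rw [Finset.sum_congr rfl fun j _ => e3 j]
        show _ = _ + (_ + _ + (monomial (gg 0 1 1 0 0) 1 + monomial (gg (m (Fin.last r)) 0 0 0 1) 1 +
            monomial (gg 0 0 0 1 1) 1 + monomial (gg 0 0 1 1 0) 1))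
        ring
      rw [e1]
      rw [e2] at h2
      have h3 := S.trans h2 h1
      convert h3 using 1
      unfold PP
      rw [Fin.sum_univ_castSucc, Fintype.sum_sum_type, Fin.snoc_last]
      have e4 : ∀ j : Fin r, C (c j.castSucc) * X ((Fin.snoc t (ρ (vT' n)) : Fin (r + 1) → Fin N) j.castSucc) =
          (C (c j.castSucc) * X (t j) : MvPolynomial (Fin N) ℂ) := by
        intro j
        rw [Fin.snoc_castSucc]
      rw [Finset.sum_congr rfl fun j _ => e4 j, map_add, map_add, map_mul, rename_C, rename_X, map_sum,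
        rename_rename]
      simp only [Sum.elim_inl, Sum.elim_inr, rename_monomial]
      ring

end Pool.Agent.Zk37.HG
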