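import Pool.Agent.Zk37.HG.Dbl

set_option autoImplicit false

/-! # Colours, degrees and the two reductions -/

namespace Pool.Agent.Zk37.HG

open MvPolynomial
open Pool.Agent.N101.CB (stp)

/-- the degree in the variables of colour `c` -/
def dg {n : ℕ} (col : Fin n → Fin 3) (c : Fin 3) (m : Fin n →₀ ℕ) : ℕ := ∑ i, if col i = c then m i else 0

/-- the extended colouring, with the colours of `t', w', t, w` -/
def c4 {n : ℕ} (col : Fin n → Fin 3) (a b c d : Fin 3) : Fin (n + 2 + 2) → Fin 3 :=
  Fin.append (Fin.append col ![a, b]) ![c, d]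

section
variable {n : ℕ} (col : Fin n → Fin 3) (a b c d : Fin 3)

theorem c4_cc (i : Fin n) : c4 col a b c d (cc i) = col i := by
  unfold c4 cc
  rw [Fin.append_left, Fin.append_left]

theorem c4_T' : c4 col a b c d (vT' n) = a := by
  unfold c4 vT'
  rw [Fin.append_left, Fin.append_right]
  rfl

theorem c4_W' : c4 col a b c d (vW' n) = b := by
  unfold c4 vW'
  rw [Fin.append_left, Fin.append_right]
  rfl

theorem c4_T : c4 col a b c d (vT n) = c := by
  unfold c4 vT
  rw [Fin.append_right]
  rfl

theorem c4_W : c4 col a b c d (vW n) = d := by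
  unfold c4 vW
  rw [Fin.append_right]
  rfl

theorem dg_gg (k : Fin 3) (m : Fin n →₀ ℕ) (p q r s : ℕ) : dg (c4 col a b c d) k (gg m p q r s) =
    dg col k m + (if a = k then p else 0) + (if b = k then q else 0) + (if c = k then r else 0) +
      (if d = k then s else 0) := by
  unfold dg
  rw [sum4]
  simp only [gg_cc, gg_T', gg_W', gg_T, gg_W, c4_cc, c4_T', c4_W', c4_T, c4_W]

theorem dg_zero (k : Fin 3) : dg col k 0 = 0 := by
  unfold dg
  simp

theorem dg_single (k : Fin 3) (i : Fin n) : dg col k (Finsupp.single i 1) = if col i = k then 1 else 0 := by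
  unfold dg
  rw [Finset.sum_eq_single i]
  · rw [Finsupp.single_eq_same]
  · intro j _ hj
    have h1 : (Finsupp.single i 1 : Fin n →₀ ℕ) j = 0 := by
      simp [Ne.symm hj]
    rw [h1]
    split_ifs <;> rfl
  · intro h
    exact absurd (Finset.mem_univ _) h

theorem dg_add (k : Fin 3) (m m' : Fin n →₀ ℕ) : dg col k (m + m') = dg col k m + dg col k m' := by
  unfold dg
  rw [← Finset.sum_add_distrib]
  refine Finset.sum_congr rfl fun i _ => ?_
  split_ifs
  · rfl
  · rfl

theorem dg_sub (k : Fin 3) {m m' : Fin n →₀ ℕ} (h : m' ≤ m) : dg col k (m - m') + dg col k m' = dg col k m := by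
  rw [← dg_add, tsub_add_cancel_of_le h]

theorem exists_of_dg {k : Fin 3} {m : Fin n →₀ ℕ} (h : dg col k m ≠ 0) : ∃ i, col i = k ∧ m i ≠ 0 := by
  by_contra hcon
  push Not at hcon
  apply h
  unfold dg
  refine Finset.sum_eq_zero fun i _ => ?_
  split_ifs with h1
  · exact hcon i h1
  · rfl

end

/-- an extension of the family `e` -/
structure Exn (S : Sys) {n N : ℕ} {ι ι' : Type} [Fintype ι] [Fintype ι'] (e : ι → Fin n →₀ ℕ)
    (e' : ι' → Fin N →₀ ℕ) (ρ : Fin n → Fin N) (κ : ℕ) : Prop where
  inj : Function.Injective e → Function.Injective e'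
  ne0 : (∀ j, e j ≠ 0) → ∀ j, e' j ≠ 0
  sing : ∀ i, (∀ j, e j ≠ Finsupp.single i 1) → ∀ j, e' j ≠ Finsupp.single (ρ i) 1
  rinj : Function.Injective ρ
  num : N = n + 2 * κ
  red : ∀ L, S.R (PP e + L) (PP e' + rename ρ L) κ

theorem Exn.refl (S : Sys) {n : ℕ} {ι : Type} [Fintype ι] (e : ι → Fin n →₀ ℕ) : Exn S e e id 0 where
  inj h := h
  ne0 h := h
  sing _ h := h
  rinj := Function.injective_id
  num := rfl
  red L := by
    rw [rename_id_apply]
    exact S.refl _

theorem Exn.trans {S : Sys} {n N N' κ κ' : ℕ} {ι ι' ι'' : Type} [Fintype ι] [Fintype ι'] [Fintype ι'']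
    {e : ι → Fin n →₀ ℕ} {e' : ι' → Fin N →₀ ℕ} {e'' : ι'' → Fin N' →₀ ℕ} {ρ : Fin n → Fin N}
    {ρ' : Fin N → Fin N'} (h : Exn S e e' ρ κ) (h' : Exn S e' e'' ρ' κ') :
    Exn S e e'' (ρ' ∘ ρ) (κ + κ') where
  inj hi := h'.inj (h.inj hi)
  ne0 h0 := h'.ne0 (h.ne0 h0)
  sing i hi := h'.sing (ρ i) (h.sing i hi)
  rinj := h'.rinj.comp h.rinj
  num := by
    have := h.num
    have := h'.num
    omega
  red L := by
    rw [← rename_rename]
    exact S.trans (h.red L) (h'.red _)

theorem Exn.ext (S : Sys) {n : ℕ} {ι : Type} [Fintype ι] (e : ι → Fin n →₀ ℕ) (B : ι → Prop)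
    [DecidablePred B] (a : Fin n →₀ ℕ) (hB : ∀ j, B j → a ≤ e j) : Exn S e (ext e B a) cc 2 where
  inj h := ext_inj e B a h hB
  ne0 h := ext_ne0 e B a h
  sing i h := ext_sing e B a h
  rinj := cc_inj
  num := rfl
  red L := by
    rw [← dst_PP e B a L hB]
    exact S.dst _ _ _

/-- the invariant of the first reduction -/
def Inv2 {n : ℕ} (col : Fin n → Fin 3) (m : Fin n →₀ ℕ) : Prop :=
  dg col 0 m ≤ 1 ∧ dg col 2 m ≤ 1 ∧ (2 ≤ dg col 1 m → dg col 0 m = 1)

theorem single_le {n : ℕ} {m : Fin n →₀ ℕ} {i : Fin n} (h : m i ≠ 0) : Finsupp.single i 1 ≤ m := by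
  rw [Finsupp.single_le_iff]
  omega

theorem phase2 (S : Sys) : ∀ (M : ℕ) {n : ℕ} {ι : Type} [Fintype ι] (e : ι → Fin n →₀ ℕ)
    (col : Fin n → Fin 3), (∀ j, Inv2 col (e j)) → ∑ j, (dg col 1 (e j) - 1) ≤ M →
    ∃ (N κ : ℕ) (ι' : Type) (_ : Fintype ι') (e' : ι' → Fin N →₀ ℕ) (ρ : Fin n → Fin N)
      (col' : Fin N → Fin 3), Exn S e e' ρ κ ∧ (∀ i, col' (ρ i) = col i) ∧
        ∀ j c, dg col' c (e' j) ≤ 1 := by
  classical
  intro M
  induction M with
  | zero =>
    intro n ι _ e col hI hM
    refine ⟨n, 0, ι, inferInstance, e, id, col, Exn.refl S e, fun i => rfl, fun j c => ?_⟩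
    have h1 : dg col 1 (e j) - 1 = 0 := by
      have h2 := Finset.sum_eq_zero_iff.1 (Nat.le_zero.1 hM) j (Finset.mem_univ j)
      exact h2
    obtain ⟨h3, h4, -⟩ := hI j
    fin_cases c
    · exact h3
    · show dg col 1 (e j) ≤ 1
      omega
    · exact h4
  | succ M ih =>
    intro n ι _ e col hI hM
    by_cases hall : ∀ j, dg col 1 (e j) ≤ 1
    · refine ⟨n, 0, ι, inferInstance, e, id, col, Exn.refl S e, fun i => rfl, fun j c => ?_⟩
      obtain ⟨h3, h4, -⟩ := hI j
      fin_cases c
      · exact h3
      · exact hall j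
      · exact h4
    · push Not at hall
      obtain ⟨j₀, hj₀⟩ := hall
      obtain ⟨h3, h4, h5⟩ := hI j₀
      have h6 := h5 hj₀
      obtain ⟨w, hw, hw0⟩ := exists_of_dg col (k := 0) (m := e j₀) (by omega)
      obtain ⟨x, hx, hx0⟩ := exists_of_dg col (k := 1) (m := e j₀) (by omega)
      have hwx : w ≠ x := by
        rintro rfl
        rw [hw] at hx
        exact absurd hx (by decide)
      set a : Fin n →₀ ℕ := Finsupp.single w 1 + Finsupp.single x 1 with ha
      have hle : a ≤ e j₀ := by
        intro i
        rw [ha, Finsupp.add_apply, Finsupp.single_apply, Finsupp.single_apply]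
        by_cases h7 : w = i
        · subst h7
          rw [if_pos rfl, if_neg (fun h => hwx h.symm)]
          omega
        · rw [if_neg h7]
          split_ifs with h8
          · subst h8
            omega
          · omega
      have hB : ∀ j, j = j₀ → a ≤ e j := by
        rintro j rfl
        exact hle
      have hE := Exn.ext S e (fun j => j = j₀) a hB
      have da : ∀ c, dg col c a = (if (0 : Fin 3) = c then 1 else 0) + (if (1 : Fin 3) = c then 1 else 0) := by
        intro c
        rw [ha, dg_add, dg_single, dg_single, hw, hx]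
      have key : ∀ y, Inv2 (c4 col 2 1 2 0) (ext e (fun j => j = j₀) a y) := by
        intro y
        rcases y with j | k
        · rw [ext_l]
          split_ifs with h7
          · subst h7
            have s0 := dg_sub col 0 hle
            have s1 := dg_sub col 1 hle
            have s2 := dg_sub col 2 hle
            have a0 := da 0
            have a1 := da 1
            have a2 := da 2
            simp at a0 a1 a2
            refine ⟨?_, ?_, fun _ => ?_⟩
            · rw [dg_gg]
              simp
              omega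
            · rw [dg_gg]
              simp
              omega
            · rw [dg_gg]
              simp
              omega
          · obtain ⟨i1, i2, i3⟩ := hI j
            refine ⟨?_, ?_, fun h8 => ?_⟩
            · rw [dg_gg]
              simpa using i1
            · rw [dg_gg]
              simpa using i2
            · rw [dg_gg] at h8 ⊢
              simp at h8 ⊢
              exact i3 h8
        · have z0 := dg_zero col 0
          have z1 := dg_zero col 1
          have z2 := dg_zero col 2
          have a0 := da 0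
          have a1 := da 1
          have a2 := da 2
          simp at a0 a1 a2
          fin_cases k
          · show Inv2 _ (ext e (fun j => j = j₀) a (Sum.inr 0))
            rw [ext_r0]
            unfold Inv2
            simp only [dg_gg, z0, z1, z2]
            simp
          · show Inv2 _ (ext e (fun j => j = j₀) a (Sum.inr 1))
            rw [ext_r1]
            unfold Inv2
            simp only [dg_gg, a0, a1, a2]
            simp
          · show Inv2 _ (ext e (fun j => j = j₀) a (Sum.inr 2))
            rw [ext_r2]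
            unfold Inv2
            simp only [dg_gg, z0, z1, z2]
            simp
          · show Inv2 _ (ext e (fun j => j = j₀) a (Sum.inr 3))
            rw [ext_r3]
            unfold Inv2
            simp only [dg_gg, z0, z1, z2]
            simp
      have hsum : ∑ y, (dg (c4 col 2 1 2 0) 1 (ext e (fun j => j = j₀) a y) - 1) ≤ M := by
        rw [Fintype.sum_sum_type, Fin.sum_univ_four, ext_r0, ext_r1, ext_r2, ext_r3]
        simp only [dg_gg, dg_zero, da]
        have h7 : ∑ j, (dg (c4 col 2 1 2 0) 1 (ext e (fun j => j = j₀) a (Sum.inl j)) - 1) <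
            ∑ j, (dg col 1 (e j) - 1) := by
          refine Finset.sum_lt_sum (fun j _ => ?_) ⟨j₀, Finset.mem_univ _, ?_⟩
          · rw [ext_l]
            split_ifs with h8
            · subst h8
              have s1 := dg_sub col 1 hle
              rw [dg_gg]
              simp
              omega
            · rw [dg_gg]
              simp
          · rw [ext_l, if_pos rfl, dg_gg]
            have s1 := dg_sub col 1 hle
            have a1 := da 1
            simp at a1 ⊢
            omega
        simp
        omega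
      obtain ⟨N, κ, ι', _, e', ρ, col', h7, h8, h9⟩ := ih (ext e (fun j => j = j₀) a) (c4 col 2 1 2 0) key hsum
      exact ⟨N, 2 + κ, ι', inferInstance, e', ρ ∘ cc, col', hE.trans h7, fun i => by
        rw [Function.comp_apply, h8, c4_cc], h9⟩

end Pool.Agent.Zk37.HG
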