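import Pool.Agent.N101.CB.TopFin

set_option autoImplicit false

/-! # Relations between a polynomial and its stabilisations, global versions

As in `Pool.Agent.N101.CB.Main`, but the steps `f ↦ f + (t + v) (w - u)` are allowed for all polynomials `u`, `v`, for
instance constants. -/

namespace Pool.Agent.Zk37.HG

open MvPolynomial Pool.Agent.W428.MOT Pool.Agent.N101.CB
open Pool.Agent.H628R4.TP (IsBFunction)

/-- The relations between `f` in `n` variables and a polynomial `F` in `n + 2 κ` variables which is the image of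
`f + ∑_{i ≤ κ} y_i z_i` by an automorphism of the polynomial ring. -/
structure RG {n m : ℕ} (f : MvPolynomial (Fin n) ℂ) (F : MvPolynomial (Fin m) ℂ) (κ : ℕ) : Prop where
  deg : f.totalDegree ≠ 0 → F.totalDegree ≠ 0
  b : f.totalDegree ≠ 0 → ∀ b : Polynomial ℂ, IsBFunction f b → b.eval (-1) = 0 ∧
    ∀ c : Polynomial ℂ, b = (Polynomial.X + 1) * c →
      IsBFunction F ((Polynomial.X + 1) * c.comp (Polynomial.X + Polynomial.C (κ : ℂ)))
  top : ∀ χ : MK ℂ →+* ℂ, χ ((Lu ℂ : (MK ℂ)ˣ) : MK ℂ) = 1 → ∀ R : RatFunc ℂ,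
    IsTop χ (zt f Set.univ) R → ∃ R' : RatFunc ℂ, IsTop χ (zt F Set.univ) R' ∧ TF κ R R' ∧
      ∀ s : ℂ, s ≠ -1 → ¬ Reg R s → ¬ Reg R' (s - κ)

theorem RG.refl {n : ℕ} (f : MvPolynomial (Fin n) ℂ) : RG f f 0 where
  deg h := h
  b := (Rl.refl f).b
  top := (Rl.refl f).top

theorem RG.step {n m : ℕ} (f u v : MvPolynomial (Fin n) ℂ) (F : MvPolynomial (Fin m) ℂ) (κ : ℕ)
    (h : RG (stp f u v) F κ) : RG f F (κ + 1) where
  deg _ := h.deg (stp_deg f u v)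
  b hf b hb := by
    obtain ⟨h1, h2⟩ := bg f u v hf b hb
    refine ⟨h1, fun c hc => ?_⟩
    rw [← comp_succ]
    exact (h.b (stp_deg f u v) _ (h2 c hc)).2 _ rfl
  top χ hχ R hR := by
    have h1 : IsTop χ (zt (stp f u v) Set.univ) (topStep 1 R) := by
      have h0 := isTop_glob hχ hR (clM (Set.univ : Set (Pt ℂ (Fin n))))
      have hw : χ (clM (Set.univ : Set (Pt ℂ (Fin n)))) = 1 := by
        rw [clM_univ, map_pow, hχ, one_pow]
      rw [hw, ← zt_glob f u v] at h0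
      exact h0
    obtain ⟨R', h2, hT, h3⟩ := h.top χ hχ _ h1
    refine ⟨R', h2, TF.comp κ (TF.one R) hT, fun s hs hR' => ?_⟩
    obtain ⟨h4, h5⟩ := top_aux 1 hR hs hR'
    have h6 := h3 (s - 1) h4 h5
    push_cast
    rwa [sub_sub, add_comm] at h6

theorem RG.ts {n m κ : ℕ} {χ : MK ℂ →+* ℂ} {f : MvPolynomial (Fin n) ℂ} {F : MvPolynomial (Fin m) ℂ}
    (h : RG f F κ) (hχ : χ ((Lu ℂ : (MK ℂ)ˣ) : MK ℂ) = 1) (hf : f.totalDegree ≠ 0)
    (hF : TS χ F) : TS χ f := by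
  intro R hR s hs b hb
  obtain ⟨h2, h3⟩ := h.b hf b hb
  by_cases h4 : s = -1
  · rw [h4]
    exact h2
  · obtain ⟨c, hc⟩ := exists_factor' h2
    obtain ⟨R', h5, -, h6⟩ := h.top χ hχ R hR
    exact strong_aux (ne_of_pole hR hs) κ h4 hc (hF R' h5 _ (h6 s h4 hs) _ (h3 c hc))

theorem RG.tw {n m κ : ℕ} {χ : MK ℂ →+* ℂ} {f : MvPolynomial (Fin n) ℂ} {F : MvPolynomial (Fin m) ℂ}
    (h : RG f F κ) (hχ : χ ((Lu ℂ : (MK ℂ)ˣ) : MK ℂ) = 1) (hf : f.totalDegree ≠ 0)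
    (hF : TW χ F) : TW χ f := by
  intro R hR s hs b hb
  obtain ⟨h2, h3⟩ := h.b hf b hb
  by_cases h4 : s = -1
  · refine ⟨0, ?_⟩
    rw [h4, Int.cast_zero, add_zero]
    exact h2
  · obtain ⟨c, hc⟩ := exists_factor' h2
    obtain ⟨R', h5, -, h6⟩ := h.top χ hχ R hR
    exact weak_aux κ hc (hF R' h5 _ (h6 s h4 hs) _ (h3 c hc))

/-- `g` in `m = n + 2 κ₀` variables can be used instead of `f` -/
def Red {n m : ℕ} (f : MvPolynomial (Fin n) ℂ) (g : MvPolynomial (Fin m) ℂ) (κ₀ : ℕ) : Prop :=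
  ∀ (M : ℕ) (F : MvPolynomial (Fin M) ℂ) (κ : ℕ), RG g F κ → RG f F (κ + κ₀)

theorem Red.refl {n : ℕ} (f : MvPolynomial (Fin n) ℂ) : Red f f 0 := fun _ _ _ h => h

theorem Red.trans {n m l κ κ' : ℕ} {f : MvPolynomial (Fin n) ℂ} {g : MvPolynomial (Fin m) ℂ}
    {h : MvPolynomial (Fin l) ℂ} (h1 : Red f g κ) (h2 : Red g h κ') : Red f h (κ + κ') := by
  intro M F μ hF
  have h3 := h1 M F _ (h2 M F μ hF)
  rwa [add_assoc, add_comm κ' κ] at h3

theorem Red.stp {n : ℕ} (f u v : MvPolynomial (Fin n) ℂ) : Red f (stp f u v) 1 :=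
  fun _ F κ h => RG.step f u v F κ h

theorem Red.rg {n m κ : ℕ} {f : MvPolynomial (Fin n) ℂ} {g : MvPolynomial (Fin m) ℂ} (h : Red f g κ) :
    RG f g κ := by
  have h1 := h m g 0 (RG.refl g)
  rwa [zero_add] at h1

end Pool.Agent.Zk37.HG
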